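import Mathlib
import Pool.Agent.H293Z.MO.Sub

set_option autoImplicit false

open Filter Topology MeasureTheory Complex

namespace Pool.Agent.H199Z.GF

open Pool.Agent.H293Z.MO

/-- the Gaussian kernel -/
noncomputable def K (δ v : ℝ) (s : ℂ) : ℂ := cexp ((δ : ℂ) ^ 2 * s ^ 2 / 2 + s * v)

theorem K_eq (δ v c t : ℝ) : K δ v (c + t * I) =
    cexp ((-(δ : ℂ) ^ 2 / 2) * t ^ 2 + (I * (δ ^ 2 * c + v)) * t + (δ ^ 2 * c ^ 2 / 2 + c * v)) := by
  unfold K
  congr 1
  linear_combination ((δ : ℂ) ^ 2 * t ^ 2 / 2) * I_sq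

theorem b_neg {δ : ℝ} (hδ : 0 < δ) : (-(δ : ℂ) ^ 2 / 2).re < 0 := by
  have : (-(δ : ℂ) ^ 2 / 2) = ((-δ ^ 2 / 2 : ℝ) : ℂ) := by push_cast; ring
  rw [this, ofReal_re]
  have := pow_pos hδ 2
  linarith

theorem integrable_K {δ : ℝ} (hδ : 0 < δ) (v c : ℝ) :
    Integrable fun t : ℝ => K δ v (c + t * I) := by
  simp_rw [K_eq]
  exact integrable_cexp_quadratic' (b_neg hδ) _ _

theorem integral_K {δ : ℝ} (hδ : 0 < δ) (v c : ℝ) :
    ∫ t : ℝ, K δ v (c + t * I) =
      ((Real.sqrt (2 * Real.pi) / δ * Real.exp (-(v ^ 2 / (2 * δ ^ 2))) : ℝ) : ℂ) := by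
  simp_rw [K_eq]
  rw [integral_cexp_quadratic (b_neg hδ)]
  have hδ' : (δ : ℂ) ≠ 0 := ofReal_ne_zero.2 hδ.ne'
  have h1 : ((Real.pi : ℂ) / -(-(δ : ℂ) ^ 2 / 2)) = ((2 * Real.pi / δ ^ 2 : ℝ) : ℂ) := by
    push_cast
    field_simp
  have h2 : (((2 * Real.pi / δ ^ 2 : ℝ) : ℂ)) ^ (1 / 2 : ℂ) =
      ((Real.sqrt (2 * Real.pi) / δ : ℝ) : ℂ) := by
    have h3 : (0 : ℝ) ≤ 2 * Real.pi / δ ^ 2 := by positivity
    have h4 : Real.sqrt (2 * Real.pi) / δ = (2 * Real.pi / δ ^ 2) ^ (1 / 2 : ℝ) := by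
      rw [← Real.sqrt_eq_rpow, Real.sqrt_div' _ (by positivity), Real.sqrt_sq hδ.le]
    rw [h4, ofReal_cpow h3]
    norm_num
  rw [h1, h2, ofReal_mul, ofReal_exp]
  congr 2
  push_cast
  field_simp
  linear_combination (4 * ((δ : ℂ) ^ 2 * c + v) ^ 2) * I_sq

theorem norm_K (δ v c t : ℝ) :
    ‖K δ v (c + t * I)‖ = Real.exp (δ ^ 2 * (c ^ 2 - t ^ 2) / 2 + c * v) := by
  rw [K_eq, norm_exp]
  congr 1
  have : (-(δ : ℂ) ^ 2 / 2) * t ^ 2 + (I * (δ ^ 2 * c + v)) * t + (δ ^ 2 * c ^ 2 / 2 + c * v) =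
      ((δ ^ 2 * (c ^ 2 - t ^ 2) / 2 + c * v : ℝ) : ℂ) + (((δ ^ 2 * c + v) * t : ℝ) : ℂ) * I := by
    push_cast
    ring
  rw [this]
  simp only [add_re, ofReal_re, mul_re, I_re, mul_zero, ofReal_im, I_im, mul_one, sub_self,
    add_zero]

theorem K_shift (δ u w : ℝ) (s : ℂ) : K δ u s * cexp (-(s * w)) = K δ (u - w) s := by
  unfold K
  rw [← Complex.exp_add]
  congr 1
  push_cast
  ring

theorem K_term (δ u : ℝ) (s : ℂ) (n : ℕ) :
    K δ u s * LSeries.term (fun n => (ArithmeticFunction.vonMangoldt n : ℂ)) s n =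
      (ArithmeticFunction.vonMangoldt n : ℂ) * K δ (u - Real.log n) s := by
  rcases Nat.eq_zero_or_pos n with rfl | hn
  · simp
  · rw [LSeries.term_of_ne_zero hn.ne', ← K_shift]
    have hn' : (n : ℂ) ≠ 0 := Nat.cast_ne_zero.2 hn.ne'
    rw [cpow_def_of_ne_zero hn', Complex.exp_neg, ← natCast_log]
    rw [div_eq_mul_inv, mul_comm ((Real.log n : ℝ) : ℂ) s]
    ring

theorem sum_part {δ : ℝ} (hδ : 0 < δ) (u : ℝ) :
    ∫ t : ℝ, K δ u ((2 : ℝ) + t * I) *
        LSeries (fun n => (ArithmeticFunction.vonMangoldt n : ℂ)) ((2 : ℝ) + t * I) =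
      ((Real.sqrt (2 * Real.pi) / δ * GG δ u : ℝ) : ℂ) := by
  set f : ℕ → ℂ := fun n => (ArithmeticFunction.vonMangoldt n : ℂ) with hf
  have hint : ∀ n : ℕ, Integrable fun t : ℝ =>
      K δ u ((2 : ℝ) + t * I) * LSeries.term f ((2 : ℝ) + t * I) n := by
    intro n
    simp_rw [hf, K_term]
    exact (integrable_K hδ _ _).const_mul _
  have hnorm : ∀ (n : ℕ) (t : ℝ), ‖LSeries.term f ((2 : ℝ) + t * I) n‖ =
      ‖LSeries.term f 2 n‖ := by
    intro n t
    rw [LSeries.norm_term_eq, LSeries.norm_term_eq]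
    simp
  have hsum : Summable fun n : ℕ => ∫ t : ℝ,
      ‖K δ u ((2 : ℝ) + t * I) * LSeries.term f ((2 : ℝ) + t * I) n‖ := by
    simp_rw [norm_mul, hnorm, integral_mul_const]
    have := ArithmeticFunction.LSeriesSummable_vonMangoldt (s := 2) (by norm_num)
    exact (summable_norm_iff.2 this).mul_left _
  have h := integral_tsum_of_summable_integral_norm hint hsum
  simp_rw [tsum_mul_left] at h
  unfold LSeries
  rw [← h]
  unfold GG
  rw [← tsum_mul_left, ofReal_tsum]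
  refine tsum_congr fun n => ?_
  simp_rw [hf, K_term]
  rw [integral_const_mul, integral_K hδ]
  push_cast
  ring

theorem pole_part {δ : ℝ} (hδ : 0 < δ) (u : ℝ) :
    ∫ t : ℝ, K δ u ((2 : ℝ) + t * I) * (((2 : ℝ) + t * I) - 1)⁻¹ =
      ((Real.sqrt (2 * Real.pi) / δ * MM δ u : ℝ) : ℂ) := by
  have h1 : ∀ t : ℝ, (((2 : ℝ) + t * I) - 1 : ℂ)⁻¹ =
      ∫ v in Set.Ioi (0 : ℝ), cexp ((1 - ((2 : ℝ) + t * I)) * v) := by
    intro t
    rw [integral_exp_mul_complex_Ioi (by simp)]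
    simp only [ofReal_zero, mul_zero, Complex.exp_zero]
    rw [← neg_sub (1 : ℂ), inv_neg, neg_div, one_div]
  simp_rw [h1, ← integral_const_mul]
  have hint : Integrable (Function.uncurry fun (t v : ℝ) =>
      K δ u ((2 : ℝ) + t * I) * cexp ((1 - ((2 : ℝ) + t * I)) * v))
      ((volume : Measure ℝ).prod ((volume : Measure ℝ).restrict (Set.Ioi 0))) := by
    have h2 : Integrable (fun z : ℝ × ℝ => ‖K δ u ((2 : ℝ) + z.1 * I)‖ * Real.exp (-1 * z.2))
        ((volume : Measure ℝ).prod ((volume : Measure ℝ).restrict (Set.Ioi 0))) :=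
      Integrable.mul_prod (integrable_K hδ u 2).norm (integrableOn_exp_mul_Ioi (by norm_num) 0)
    refine h2.mono' ?_ (Eventually.of_forall fun z => le_of_eq ?_)
    · apply Continuous.aestronglyMeasurable
      unfold K Function.uncurry
      fun_prop
    · simp only [Function.uncurry, norm_mul, norm_exp]
      congr 2
      simp
      ring
  rw [integral_integral_swap hint]
  unfold MM
  rw [← integral_const_mul, ← integral_complex_ofReal]
  refine setIntegral_congr_fun measurableSet_Ioi fun v _ => ?_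
  have h3 : ∀ t : ℝ, K δ u ((2 : ℝ) + t * I) * cexp ((1 - ((2 : ℝ) + t * I)) * v) =
      cexp v * K δ (u - v) ((2 : ℝ) + t * I) := by
    intro t
    rw [← K_shift, mul_comm (cexp v), mul_assoc, ← Complex.exp_add]
    congr 2
    ring
  simp only [h3]
  rw [integral_const_mul, integral_K hδ, sub_eq_add_neg v, Real.exp_add]
  push_cast
  ring

/-- the integrand -/
noncomputable def F (δ u : ℝ) (s : ℂ) : ℂ :=
  K δ u s * (deriv riemannZeta₁ s / riemannZeta₁ s)

/-- the majorant -/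
noncomputable def g (C δ u t : ℝ) : ℝ :=
  |C| * Real.exp (2 * δ ^ 2 + 2 * |u|) * (Real.exp (-(δ ^ 2 / 2) * t ^ 2) * (|t| + 3))

theorem F_diff {σ C : ℝ} (h : LD σ C) (δ u : ℝ) {s : ℂ} (h1 : σ ≤ s.re) (h2 : s.re ≤ 2) :
    DifferentiableAt ℂ (F δ u) s := by
  unfold F K
  refine DifferentiableAt.mul (by fun_prop) ?_
  exact (differentiable_riemannZeta₁.deriv s).div (differentiable_riemannZeta₁ s) (h s h1 h2).1

theorem F_bound {σ C : ℝ} (hσ : 0 < σ) (h : LD σ C) (δ u : ℝ) {x : ℝ} (h1 : σ ≤ x) (h2 : x ≤ 2)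
    (t : ℝ) : ‖F δ u (x + t * I)‖ ≤ g C δ u t := by
  unfold F g
  rw [norm_mul, norm_K]
  have h3 := (h (x + t * I) (by simpa using h1) (by simpa using h2)).2
  have him : ((x : ℂ) + t * I).im = t := by simp
  rw [him] at h3
  have h4 : Real.log (|t| + 3) ≤ |t| + 3 := by
    have := Real.log_le_sub_one_of_pos (show 0 < |t| + 3 by positivity)
    linarith
  have h5 : 0 ≤ Real.log (|t| + 3) := Real.log_nonneg (by have := abs_nonneg t; linarith)
  have h6 : C * Real.log (|t| + 3) ≤ |C| * (|t| + 3) :=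
    (mul_le_mul_of_nonneg_right (le_abs_self C) h5).trans
      (mul_le_mul_of_nonneg_left h4 (abs_nonneg C))
  have h7 : Real.exp (δ ^ 2 * (x ^ 2 - t ^ 2) / 2 + x * u) ≤
      Real.exp (2 * δ ^ 2 + 2 * |u|) * Real.exp (-(δ ^ 2 / 2) * t ^ 2) := by
    rw [← Real.exp_add]
    apply Real.exp_le_exp.2
    have hx : 0 ≤ x := by linarith
    have h8 : x * u ≤ 2 * |u| :=
      (mul_le_mul_of_nonneg_left (le_abs_self u) hx).trans
        (mul_le_mul_of_nonneg_right h2 (abs_nonneg u))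
    have h9 : δ ^ 2 * x ^ 2 ≤ δ ^ 2 * 4 :=
      mul_le_mul_of_nonneg_left (by nlinarith) (sq_nonneg δ)
    nlinarith
  calc _ ≤ (Real.exp (2 * δ ^ 2 + 2 * |u|) * Real.exp (-(δ ^ 2 / 2) * t ^ 2)) *
        (|C| * (|t| + 3)) :=
        mul_le_mul h7 (h3.trans h6) (norm_nonneg _) (by positivity)
    _ = _ := by ring

theorem g_integrable (C : ℝ) {δ : ℝ} (hδ : 0 < δ) (u : ℝ) : Integrable (g C δ u) := by
  unfold g
  refine Integrable.const_mul ?_ _
  have hb : 0 < δ ^ 2 / 2 := by positivity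
  have h1 := (integrable_mul_exp_neg_mul_sq hb).abs
  have h2 := (integrable_exp_neg_mul_sq hb).mul_const 3
  refine (h1.add h2).congr (Eventually.of_forall fun t => ?_)
  simp only [Pi.add_apply, abs_mul, abs_of_pos (Real.exp_pos _)]
  ring

theorem g_tendsto (C : ℝ) {δ : ℝ} (hδ : 0 < δ) (u : ℝ) : Tendsto (g C δ u) atTop (𝓝 0) := by
  unfold g
  have hb : 0 < δ ^ 2 / 2 := by positivity
  rw [← mul_zero (|C| * Real.exp (2 * δ ^ 2 + 2 * |u|))]
  refine Tendsto.const_mul _ ?_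
  have h0 : Tendsto (fun t : ℝ => (2 / (δ ^ 2 / 2)) * t⁻¹) atTop (𝓝 0) := by
    have := tendsto_inv_atTop_zero.const_mul (2 / (δ ^ 2 / 2))
    rwa [mul_zero] at this
  refine squeeze_zero' (Eventually.of_forall fun t => by positivity) ?_ h0
  filter_upwards [eventually_ge_atTop (3 : ℝ)] with t ht
  have ht0 : 0 < t := by linarith
  have h1 : Real.exp (-(δ ^ 2 / 2) * t ^ 2) ≤ ((δ ^ 2 / 2) * t ^ 2)⁻¹ := by
    rw [neg_mul, Real.exp_neg]
    apply inv_anti₀ (by positivity)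
    have := Real.add_one_le_exp ((δ ^ 2 / 2) * t ^ 2)
    linarith
  rw [abs_of_pos ht0]
  calc _ ≤ ((δ ^ 2 / 2) * t ^ 2)⁻¹ * (2 * t) :=
        mul_le_mul h1 (by linarith) (by positivity) (by positivity)
    _ = _ := by field_simp

theorem F_integrable {σ C : ℝ} (hσ : 0 < σ) (h : LD σ C) {δ : ℝ} (hδ : 0 < δ) (u : ℝ) {x : ℝ}
    (h1 : σ ≤ x) (h2 : x ≤ 2) : Integrable fun t : ℝ => F δ u (x + t * I) := by
  refine (g_integrable C hδ u).mono' ?_ (Eventually.of_forall (F_bound hσ h δ u h1 h2))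
  apply Continuous.aestronglyMeasurable
  refine continuous_iff_continuousAt.2 fun t => ?_
  have := (F_diff h δ u (s := x + t * I) (by simpa using h1) (by simpa using h2)).continuousAt
  exact ContinuousAt.comp (f := fun t : ℝ => (x : ℂ) + t * I) this (by fun_prop)

theorem horiz {σ C : ℝ} (hσ : 0 < σ) (hσ2 : σ ≤ 2) (h : LD σ C) (δ u T : ℝ) :
    ‖∫ x in σ..2, F δ u (x + T * I)‖ ≤ g C δ u T * |2 - σ| := by
  refine intervalIntegral.norm_integral_le_of_norm_le_const fun x hx => ?_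
  rw [Set.uIoc_of_le hσ2] at hx
  exact F_bound hσ h δ u hx.1.le hx.2 T

theorem shift {σ C : ℝ} (hσ : 0 < σ) (hσ2 : σ ≤ 2) (h : LD σ C) {δ : ℝ} (hδ : 0 < δ) (u : ℝ) :
    ∫ t : ℝ, F δ u ((2 : ℝ) + t * I) = ∫ t : ℝ, F δ u (σ + t * I) := by
  have hrect : ∀ T : ℝ, (∫ x in σ..2, F δ u (x + (-T : ℝ) * I)) - (∫ x in σ..2, F δ u (x + T * I)) +
      I • (∫ y in (-T)..T, F δ u ((2 : ℝ) + y * I)) - I • (∫ y in (-T)..T, F δ u (σ + y * I)) = 0 := by
    intro T
    have := integral_boundary_rect_eq_zero_of_differentiableOn (F δ u) ⟨σ, -T⟩ ⟨2, T⟩ (by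
      intro s hs
      have hs1 : s.re ∈ Set.uIcc σ 2 := hs.1
      rw [Set.uIcc_of_le hσ2] at hs1
      exact (F_diff h δ u hs1.1 hs1.2).differentiableWithinAt)
    exact this
  have hg : Tendsto (fun T => g C δ u T * |2 - σ|) atTop (𝓝 0) := by
    simpa using (g_tendsto C hδ u).mul_const |2 - σ|
  have hA : Tendsto (fun T : ℝ => ∫ x in σ..2, F δ u (x + (-T : ℝ) * I)) atTop (𝓝 0) := by
    refine squeeze_zero_norm (fun T => ?_) hg
    have := horiz hσ hσ2 h δ u (-T)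
    have hgT : g C δ u (-T) = g C δ u T := by simp [g]
    rwa [hgT] at this
  have hB : Tendsto (fun T : ℝ => ∫ x in σ..2, F δ u (x + T * I)) atTop (𝓝 0) :=
    squeeze_zero_norm (fun T => horiz hσ hσ2 h δ u T) hg
  have hC := intervalIntegral_tendsto_integral (F_integrable hσ h hδ u hσ2 le_rfl)
    tendsto_neg_atTop_atBot tendsto_id
  have hD := intervalIntegral_tendsto_integral (F_integrable hσ h hδ u le_rfl hσ2)
    tendsto_neg_atTop_atBot tendsto_id
  have hlim := ((hA.sub hB).add (hC.const_smul I)).sub (hD.const_smul I)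
  have h0 : Tendsto (fun _ : ℝ => (0 : ℂ)) atTop (𝓝 0) := tendsto_const_nhds
  have := tendsto_nhds_unique (hlim.congr fun T => hrect T) h0
  simp only [sub_self, zero_add, smul_eq_mul] at this
  have h2 := sub_eq_zero.1 this
  exact mul_left_cancel₀ I_ne_zero h2

theorem gf : S_GF := by
  intro σ C hσ hσ2 h δ hδ u
  have hpt : ∀ t : ℝ, F δ u ((2 : ℝ) + t * I) =
      K δ u ((2 : ℝ) + t * I) * (((2 : ℝ) + t * I) - 1)⁻¹ - K δ u ((2 : ℝ) + t * I) *
        LSeries (fun n => (ArithmeticFunction.vonMangoldt n : ℂ)) ((2 : ℝ) + t * I) := by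
    intro t
    have hre : (1 : ℝ) < (((2 : ℝ) : ℂ) + t * I).re := by simp
    have hne : (((2 : ℝ) : ℂ) + t * I) ≠ 1 := by
      intro h1
      rw [h1] at hre
      simp at hre
    have hZ := (h (((2 : ℝ) : ℂ) + t * I) (by simpa using hσ2) (by simp)).1
    have hsub := sub_ne_zero_of_ne hne
    unfold F
    rw [ArithmeticFunction.LSeries_vonMangoldt_eq_deriv_riemannZeta_div hre,
      deriv_riemannZeta_eq_neg_inv_sub_sq_mul_add hne, riemannZeta_eq_inv_sub_mul hne]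
    field_simp
    ring
  have hI1 : Integrable fun t : ℝ => K δ u ((2 : ℝ) + t * I) * (((2 : ℝ) + t * I) - 1)⁻¹ := by
    have hne : ∀ t : ℝ, (((2 : ℝ) : ℂ) + t * I) - 1 ≠ 0 := by
      intro t h1
      have := congrArg Complex.re h1
      simp at this
      norm_num at this
    refine (integrable_K hδ u 2).mul_bdd (c := 1) ?_ (Eventually.of_forall fun t => ?_)
    · apply Continuous.aestronglyMeasurable
      exact Continuous.inv₀ (by fun_prop) hne
    · rw [norm_inv]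
      apply inv_le_one_of_one_le₀
      have := Complex.re_le_norm ((((2 : ℝ) : ℂ) + t * I) - 1)
      simp at this
      norm_num at this ⊢
      linarith
  have hI2 : Integrable fun t : ℝ => K δ u ((2 : ℝ) + t * I) *
      LSeries (fun n => (ArithmeticFunction.vonMangoldt n : ℂ)) ((2 : ℝ) + t * I) := by
    have := hI1.sub (F_integrable hσ h hδ u hσ2 le_rfl)
    refine this.congr (Eventually.of_forall fun t => ?_)
    simp only [Pi.sub_apply, hpt]
    ring
  have h1 := shift hσ hσ2 h hδ u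
  simp_rw [hpt] at h1
  rw [integral_sub hI1 hI2, pole_part hδ, sum_part hδ] at h1
  have h2 : ∀ t : ℝ, F δ u (σ + t * I) =
      ((Real.exp (σ * u) : ℝ) : ℂ) * (Pool.Agent.H293Z.MO.ker σ δ t * cexp (I * t * u)) := by
    intro t
    unfold F K Pool.Agent.H293Z.MO.ker
    rw [Complex.exp_add, ofReal_exp]
    have : cexp ((σ + t * I) * u) = cexp ((σ * u : ℝ) : ℂ) * cexp (I * t * u) := by
      rw [← Complex.exp_add]
      congr 1
      push_cast
      ring
    rw [this]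
    ring
  simp_rw [h2] at h1
  rw [integral_const_mul] at h1
  have hs : (Real.sqrt (2 * Real.pi) : ℂ) ≠ 0 :=
    ofReal_ne_zero.2 (Real.sqrt_pos.2 (by positivity)).ne'
  have hδ' : (δ : ℂ) ≠ 0 := ofReal_ne_zero.2 hδ.ne'
  rw [ofReal_mul, mul_assoc, ← h1]
  simp only [ofReal_sub, ofReal_mul, ofReal_div]
  field_simp
  ring

end Pool.Agent.H199Z.GF
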