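import Mathlib

set_option autoImplicit false

/-! A blow-up of the affine plane of order five, with six heavy points on an ellipse. -/

namespace Pool.Agent.H199Z.Plane

/-- index of the line of direction `d` through the point `p = 5 x + y` -/
def lid (d p : ℕ) : ℕ := if d = 5 then p / 5 else (p % 5 + (5 - d) * (p / 5)) % 5

/-- colour used inside a part -/
def loopc (p : ℕ) : ℕ :=
  if p = 12 then 3 else if p = 13 then 2 else if p = 17 then 2 else if p = 18 then 3 else 5

/-- colour between the parts `p` and `q` -/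
def dir (p q : ℕ) : ℕ :=
  if p = q then loopc p
  else if lid 0 p = lid 0 q then 0 else if lid 1 p = lid 1 q then 1
  else if lid 2 p = lid 2 q then 2 else if lid 3 p = lid 3 q then 3
  else if lid 4 p = lid 4 q then 4 else 5

/-- relative sizes of the parts -/
def u (p : ℕ) : ℕ :=
  if p = 5 then 410 else if p = 20 then 420 else if p = 12 then 440 else if p = 13 then 480
  else if p = 17 then 560 else if p = 18 then 720 else 1

def onl (p : ℕ) (l : ℕ × ℕ) : Bool := lid l.1 p == l.2

def nbr (T : List (ℕ × ℕ)) (I : List ℕ) (q : ℕ) : Bool :=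
  I.any fun p => T.any fun l => onl p l && dir p q == l.1

def cert (T : List (ℕ × ℕ)) (I : List ℕ) : Bool :=
  decide ((((List.range 25).filter (nbr T I)).map u).sum < (I.map u).sum)

def cands : List (List ℕ) :=
  [[18], [17], [13], [12], [20], [5],
   [5, 20], [5, 12], [5, 13], [5, 17], [5, 18], [20, 12], [20, 13], [20, 17], [20, 18],
   [12, 13], [12, 17], [12, 18], [13, 17], [13, 18], [17, 18],
   [20, 12, 13, 17, 18], [5, 12, 13, 17, 18], [5, 20, 13, 17, 18], [5, 20, 12, 17, 18],
   [5, 20, 12, 13, 18], [5, 20, 12, 13, 17]]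

def good (T : List (ℕ × ℕ)) : Bool := cands.any (cert T)

def pencil (P : ℕ) : List (ℕ × ℕ) := (List.range 6).map fun d => (d, lid d P)

def par (d : ℕ) (l : ℕ × ℕ) : List (ℕ × ℕ) := l :: (List.range 5).map fun a => (d, a)

theorem good_pencil : ∀ P < 25, good (pencil P) = true := by decide +kernel

theorem good_par0 : ∀ d < 6, ∀ a < 5, good (par 0 (d, a)) = true := by decide +kernel
theorem good_par1 : ∀ d < 6, ∀ a < 5, good (par 1 (d, a)) = true := by decide +kernel
theorem good_par2 : ∀ d < 6, ∀ a < 5, good (par 2 (d, a)) = true := by decide +kernel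
theorem good_par3 : ∀ d < 6, ∀ a < 5, good (par 3 (d, a)) = true := by decide +kernel
theorem good_par4 : ∀ d < 6, ∀ a < 5, good (par 4 (d, a)) = true := by decide +kernel
theorem good_par5 : ∀ d < 6, ∀ a < 5, good (par 5 (d, a)) = true := by decide +kernel

theorem good_par (e : ℕ) (he : e < 6) : ∀ d < 6, ∀ a < 5, good (par e (d, a)) = true := by
  interval_cases e
  exacts [good_par0, good_par1, good_par2, good_par3, good_par4, good_par5]

def conc (T : List (ℕ × ℕ)) : Bool := (List.range 25).any fun P => T.all (onl P)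

def search : ℕ → List (ℕ × ℕ) → Bool
  | 0, T => match (List.range 25).find? (fun p => !(T.any (onl p))) with
      | some _ => true
      | none => conc T
  | k + 1, T => match (List.range 25).find? (fun p => !(T.any (onl p))) with
      | some p => (List.range 6).all fun d =>
          T.any (fun l => l.1 == d) || search k ((d, lid d p) :: T)
      | none => false

theorem search_ok : search 6 [] = true := by decide +kernel

theorem lid_inj0 : ∀ d < 6, ∀ e < 6, ∀ p < 25, ∀ q < 25,
    (d == e || !(lid d p == lid d q) || !(lid e p == lid e q) || p == q) = true := by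
  decide +kernel

theorem lid_inj (d : ℕ) (hd : d < 6) (e : ℕ) (he : e < 6) (hde : d ≠ e) (p : ℕ) (hp : p < 25)
    (q : ℕ) (hq : q < 25) (h1 : lid d p = lid d q) (h2 : lid e p = lid e q) : p = q := by
  have := lid_inj0 d hd e he p hp q hq
  simpa [hde, h1, h2] using this

theorem line_card : ∀ d < 6, ∀ a < 5,
    ((Finset.range 25).filter fun p => lid d p = a).card = 5 := by decide +kernel

theorem dir_lt (p q : ℕ) : dir p q < 6 := by
  unfold dir loopc
  split_ifs <;> omega

theorem dir_comm : ∀ p < 25, ∀ q < 25, dir p q = dir q p := by decide +kernel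

theorem lid_dir : ∀ p < 25, ∀ q < 25, lid (dir p q) p = lid (dir p q) q := by decide +kernel

theorem lid_lt : ∀ d < 6, ∀ p < 25, lid d p < 5 := by decide +kernel

theorem u_pos (p : ℕ) : 0 < u p := by
  unfold u
  split_ifs <;> omega

theorem cands_ok : ∀ I ∈ cands, I.Nodup ∧ ∀ p ∈ I, p < 25 := by decide +kernel

theorem search_sound (S : Finset (ℕ × ℕ)) (hS : ∀ l ∈ S, l.1 < 6 ∧ l.2 < 5)
    (hcov : ∀ p < 25, ∃ l ∈ S, onl p l = true)
    (hone : ∀ l ∈ S, ∀ l' ∈ S, l.1 = l'.1 → l = l') :
    ∀ (k : ℕ) (T : List (ℕ × ℕ)), (∀ l ∈ T, l ∈ S) → (S \ T.toFinset).card ≤ k →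
      search k T = true → ∃ P < 25, ∀ l ∈ S, onl P l = true := by
  have key : ∀ (T : List (ℕ × ℕ)) (p : ℕ),
      (List.range 25).find? (fun p => !(T.any (onl p))) = some p →
      ∃ l ∈ S, l ∉ T ∧ l = (l.1, lid l.1 p) := by
    intro T p hp
    have h1 := List.find?_some hp
    have h2 := List.mem_range.1 (List.mem_of_find?_eq_some hp)
    obtain ⟨l, hl, hon⟩ := hcov p h2
    refine ⟨l, hl, ?_, ?_⟩
    · intro hT
      have : T.any (onl p) = true := List.any_eq_true.2 ⟨l, hT, hon⟩
      simp [this] at h1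
    · unfold onl at hon
      have : lid l.1 p = l.2 := by simpa using hon
      rw [this]
  have step : ∀ (T : List (ℕ × ℕ)) (l : ℕ × ℕ) (k : ℕ), l ∈ S → l ∉ T →
      (S \ T.toFinset).card ≤ k + 1 → (S \ (l :: T).toFinset).card ≤ k := by
    intro T l k hl hT h
    have : S \ (l :: T).toFinset = (S \ T.toFinset).erase l := by
      ext x
      simp only [List.toFinset_cons, Finset.mem_sdiff, Finset.mem_insert, List.mem_toFinset,
        Finset.mem_erase]
      tauto
    rw [this, Finset.card_erase_of_mem (by simp [hl, hT])]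
    omega
  intro k
  induction k with
  | zero =>
    intro T _ hk hs
    have hsub : ∀ l ∈ S, l ∈ T := by
      intro l hl
      by_contra hT
      have : l ∈ S \ T.toFinset := by simp [hl, hT]
      rw [Finset.card_eq_zero.1 (Nat.le_zero.1 hk)] at this
      simp at this
    unfold search at hs
    cases hf : (List.range 25).find? (fun p => !(T.any (onl p))) with
    | some p =>
      obtain ⟨l, hl, hT, _⟩ := key T p hf
      exact absurd (hsub l hl) hT
    | none =>
      rw [hf] at hs
      obtain ⟨P, hP, hall⟩ := List.any_eq_true.1 hs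
      exact ⟨P, List.mem_range.1 hP, fun l hl => List.all_eq_true.1 hall l (hsub l hl)⟩
  | succ k ih =>
    intro T hTS hk hs
    unfold search at hs
    cases hf : (List.range 25).find? (fun p => !(T.any (onl p))) with
    | some p =>
      rw [hf] at hs
      obtain ⟨l, hl, hT, he⟩ := key T p hf
      have h1 := List.all_eq_true.1 hs l.1 (List.mem_range.2 (hS l hl).1)
      rw [← he, Bool.or_eq_true] at h1
      rcases h1 with h1 | h1
      · obtain ⟨l', hl', h2⟩ := List.any_eq_true.1 h1
        have h3 : l'.1 = l.1 := by simpa using h2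
        have := hone l' (hTS l' hl') l hl h3
        exact absurd (this ▸ hl') hT
      · refine ih _ ?_ (step T l k hl hT hk) h1
        intro l' hl'
        rcases List.mem_cons.1 hl' with rfl | h
        · exact hl
        · exact hTS l' h
    | none =>
      rw [hf] at hs
      exact absurd hs (by simp)

theorem exists_good (S : Finset (ℕ × ℕ)) (hS : ∀ l ∈ S, l.1 < 6 ∧ l.2 < 5) (hc : S.card ≤ 6)
    (hcov : ∀ p < 25, ∃ l ∈ S, onl p l = true) :
    ∃ T : List (ℕ × ℕ), (∀ l ∈ S, l ∈ T) ∧ good T = true := by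
  classical
  by_cases hpar : ∃ d < 6, ∀ a < 5, (d, a) ∈ S
  · obtain ⟨d, hd, ha⟩ := hpar
    have hsub : (Finset.range 5).image (fun a => (d, a)) ⊆ S := by
      intro l hl
      obtain ⟨a, h, rfl⟩ := Finset.mem_image.1 hl
      exact ha a (Finset.mem_range.1 h)
    have hcard : ((Finset.range 5).image (fun a => (d, a))).card = 5 := by
      rw [Finset.card_image_of_injective _ (fun a b h => by simpa using h)]
      simp
    have h1 : (S \ (Finset.range 5).image (fun a => (d, a))).card ≤ 1 := by
      rw [Finset.card_sdiff_of_subset hsub]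
      omega
    have h2 : ∃ l0 : ℕ × ℕ, l0.1 < 6 ∧ l0.2 < 5 ∧
        ∀ l ∈ S \ (Finset.range 5).image (fun a => (d, a)), l = l0 := by
      rcases (S \ (Finset.range 5).image (fun a => (d, a))).eq_empty_or_nonempty with h | ⟨l0, h⟩
      · exact ⟨(0, 0), by norm_num, by norm_num, by rw [h]; simp⟩
      · exact ⟨l0, (hS _ (Finset.mem_sdiff.1 h).1).1, (hS _ (Finset.mem_sdiff.1 h).1).2,
          fun l hl => Finset.card_le_one.1 h1 l hl l0 h⟩
    obtain ⟨l0, h3, h4, h5⟩ := h2
    refine ⟨par d (l0.1, l0.2), ?_, good_par d hd _ h3 _ h4⟩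
    intro l hl
    unfold par
    by_cases h : l ∈ (Finset.range 5).image (fun a => (d, a))
    · obtain ⟨a, ha', rfl⟩ := Finset.mem_image.1 h
      exact List.mem_cons_of_mem _
        (List.mem_map.2 ⟨a, List.mem_range.2 (Finset.mem_range.1 ha'), rfl⟩)
    · rw [h5 l (Finset.mem_sdiff.2 ⟨hl, h⟩)]
      exact List.mem_cons_self
  · push Not at hpar
    have hone : ∀ l ∈ S, ∀ l' ∈ S, l.1 = l'.1 → l = l' := by
      intro l hl l' hl' h
      obtain ⟨a, ha, hna⟩ := hpar l.1 (hS l hl).1
      have hcov' : ∀ p : ℕ, ∃ m : ℕ × ℕ, p < 25 → m ∈ S ∧ lid m.1 p = m.2 := by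
        intro p
        by_cases hp : p < 25
        · obtain ⟨m, hm, hon⟩ := hcov p hp
          exact ⟨m, fun _ => ⟨hm, by simpa [onl] using hon⟩⟩
        · exact ⟨(0, 0), fun h => absurd h hp⟩
      choose f hf using hcov'
      have hmap : ∀ p ∈ (Finset.range 25).filter fun p => lid l.1 p = a,
          f p ∈ S.filter fun m => m.1 ≠ l.1 := by
        intro p hp
        obtain ⟨hp1, hp2⟩ := Finset.mem_filter.1 hp
        obtain ⟨h1, h2⟩ := hf p (Finset.mem_range.1 hp1)
        refine Finset.mem_filter.2 ⟨h1, fun h3 => hna ?_⟩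
        have : f p = (l.1, a) := Prod.ext h3 (by rw [← h2, h3, hp2])
        exact this ▸ h1
      have hinj : Set.InjOn f ((Finset.range 25).filter fun p => lid l.1 p = a : Finset ℕ) := by
        intro p hp q hq hpq
        have hp' := hmap p hp
        obtain ⟨hp1, hp2⟩ := Finset.mem_filter.1 hp
        obtain ⟨hq1, hq2⟩ := Finset.mem_filter.1 hq
        rw [Finset.mem_range] at hp1 hq1
        obtain ⟨h1, h2⟩ := hf p hp1
        obtain ⟨_, h4⟩ := hf q hq1
        refine lid_inj (f p).1 (hS _ h1).1 l.1 (hS l hl).1 (Finset.mem_filter.1 hp').2 p hp1 q hq1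
          ?_ (hp2.trans hq2.symm)
        rw [h2, hpq, h4]
      have h5 := Finset.card_le_card_of_injOn f hmap hinj
      rw [line_card _ (hS l hl).1 a ha] at h5
      have h6 := Finset.card_filter_add_card_filter_not (s := S) (fun m : ℕ × ℕ => m.1 ≠ l.1)
      have h7 : (S.filter fun m : ℕ × ℕ => ¬ m.1 ≠ l.1).card ≤ 1 := by omega
      exact Finset.card_le_one.1 h7 l (Finset.mem_filter.2 ⟨hl, by simp⟩) l'
        (Finset.mem_filter.2 ⟨hl', by simp [h]⟩)
    obtain ⟨P, hP, hall⟩ := search_sound S hS hcov hone 6 [] (by simp) (by simpa using hc) search_ok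
    refine ⟨pencil P, ?_, good_pencil P hP⟩
    intro l hl
    unfold pencil
    refine List.mem_map.2 ⟨l.1, List.mem_range.2 (hS l hl).1, ?_⟩
    have : lid l.1 P = l.2 := by simpa [onl] using hall l hl
    rw [this]

open Classical in
/-- For any at most six lines there is a set of points heavier than its neighbourhood. -/
theorem exists_cert (S : Finset (ℕ × ℕ)) (hS : ∀ l ∈ S, l.1 < 6 ∧ l.2 < 5) (hc : S.card ≤ 6) :
    ∃ I N : Finset ℕ, (∀ p ∈ I, p < 25) ∧ (∀ p ∈ N, p < 25) ∧
      (∀ p ∈ I, ∀ l ∈ S, lid l.1 p = l.2 → ∀ q < 25, dir p q = l.1 → q ∈ N) ∧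
      ∑ q ∈ N, u q < ∑ p ∈ I, u p := by
  by_cases hcov : ∀ p < 25, ∃ l ∈ S, onl p l = true
  · obtain ⟨T, hT, hg⟩ := exists_good S hS hc hcov
    obtain ⟨I, hI, hcert⟩ := List.any_eq_true.1 hg
    obtain ⟨hnd, hlt⟩ := cands_ok I hI
    refine ⟨I.toFinset, ((List.range 25).filter (nbr T I)).toFinset, ?_, ?_, ?_, ?_⟩
    · intro p hp
      exact hlt p (List.mem_toFinset.1 hp)
    · intro p hp
      exact List.mem_range.1 (List.mem_of_mem_filter (List.mem_toFinset.1 hp))
    · intro p hp l hl hon q hq hd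
      rw [List.mem_toFinset, List.mem_filter]
      refine ⟨List.mem_range.2 hq, ?_⟩
      unfold nbr
      refine List.any_eq_true.2 ⟨p, List.mem_toFinset.1 hp, List.any_eq_true.2 ⟨l, hT l hl, ?_⟩⟩
      simp [onl, hon, hd]
    · rw [List.sum_toFinset _ (List.nodup_range.filter _), List.sum_toFinset _ hnd]
      unfold cert at hcert
      exact of_decide_eq_true hcert
  · push Not at hcov
    obtain ⟨p, hp, hn⟩ := hcov
    refine ⟨{p}, ∅, by simpa using hp, by simp, ?_, by simpa using u_pos p⟩
    intro p' hp' l hl hon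
    rw [Finset.mem_singleton] at hp'
    subst hp'
    exact absurd (by simp [onl, hon]) (hn l hl)

theorem exists_part (M : ℕ) : ∃ (n : ℕ) (part : Fin n → ℕ), (∀ x, part x < 25) ∧
    ∀ p < 25, (Finset.univ.filter fun x => part x = p).card = M * u p := by
  classical
  let V := Σ p : Fin 25, Fin (M * u p)
  let e : V ≃ Fin (Fintype.card V) := Fintype.equivFin V
  refine ⟨Fintype.card V, fun x => (e.symm x).1, fun x => (e.symm x).1.2, ?_⟩
  intro p hp
  have : (Finset.univ.filter fun x : Fin (Fintype.card V) => ((e.symm x).1 : ℕ) = p) =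
      (Finset.univ : Finset (Fin (M * u p))).map
        ⟨fun i => e ⟨⟨p, hp⟩, i⟩, fun i j hij => by
          have := e.injective hij
          exact eq_of_heq (Sigma.mk.inj this).2⟩ := by
    ext x
    simp only [Finset.mem_filter, Finset.mem_univ, true_and, Finset.mem_map,
      Function.Embedding.coeFn_mk]
    constructor
    · intro h
      obtain ⟨y, rfl⟩ := e.surjective x
      obtain ⟨⟨a, ha⟩, i⟩ := y
      simp only [Equiv.symm_apply_apply] at h
      subst h
      exact ⟨i, rfl⟩
    · rintro ⟨i, rfl⟩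
      simp
  rw [this]
  simp

theorem card_parts {n : ℕ} (part : Fin n → ℕ) (M : ℕ)
    (h : ∀ p < 25, (Finset.univ.filter fun x => part x = p).card = M * u p)
    (I : Finset ℕ) (hI : ∀ p ∈ I, p < 25) :
    (Finset.univ.filter fun x => part x ∈ I).card = M * ∑ p ∈ I, u p := by
  classical
  rw [Finset.card_eq_sum_card_fiberwise (f := part) (s := Finset.univ.filter fun x => part x ∈ I)
    (t := I) (fun x hx => by simpa using hx), Finset.mul_sum]
  refine Finset.sum_congr rfl fun p hp => ?_
  rw [← h p (hI p hp)]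
  congr 1
  ext x
  simp only [Finset.mem_filter, Finset.mem_univ, true_and]
  constructor
  · exact fun hx => hx.2
  · intro hx
    exact ⟨hx ▸ hp, hx⟩

/-- Six disjoint monochromatic paths or cycles, described by successor maps, miss more than `c`
vertices. -/
theorem bound (c : ℕ) {n : ℕ} (part : Fin n → ℕ) (hpart : ∀ x, part x < 25)
    (h : ∀ p < 25, (Finset.univ.filter fun x => part x = p).card = (c + 7) * u p)
    {ι : Type} [Fintype ι] [DecidableEq ι] (hι : Fintype.card ι ≤ 6) (C : ι → Finset (Fin n))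
    (hdisj : ∀ i j, i ≠ j → Disjoint (C i) (C j))
    (hC : ∀ j, ∃ (col a : ℕ) (σ : Fin n → Fin n) (E : Finset (Fin n)), col < 6 ∧ a < 5 ∧
      E.card ≤ 1 ∧ (∀ x ∈ C j, lid col (part x) = a) ∧
      (∀ x ∈ C j, x ∉ E → σ x ∈ C j ∧ dir (part x) (part (σ x)) = col) ∧
      Set.InjOn σ {x | x ∈ C j ∧ x ∉ E}) :
    c < (Finset.univ \ Finset.univ.biUnion C).card := by
  classical
  choose col a σ E hcol ha hE hline hσ hinj using hC
  obtain ⟨I, N, hI, hN, hnb, hlt⟩ := exists_cert (Finset.univ.image fun j => (col j, a j))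
    (by
      intro l hl
      obtain ⟨j, _, rfl⟩ := Finset.mem_image.1 hl
      exact ⟨hcol j, ha j⟩)
    (le_trans Finset.card_image_le (by simpa using hι))
  set A := Finset.univ.filter fun x => part x ∈ I with hA
  set B := Finset.univ.filter fun x => part x ∈ N with hB
  set U := Finset.univ \ Finset.univ.biUnion C with hU
  set EE := Finset.univ.biUnion E with hEE
  set A' := A.filter fun x => ∃ j, x ∈ C j ∧ x ∉ E j with hA'
  have hAc : A.card = (c + 7) * ∑ p ∈ I, u p := card_parts part _ h I hI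
  have hBc : B.card = (c + 7) * ∑ p ∈ N, u p := card_parts part _ h N hN
  have hEc : EE.card ≤ 6 := by
    refine le_trans Finset.card_biUnion_le (le_trans (Finset.sum_le_sum fun j _ => hE j) ?_)
    simpa using hι
  have hsub : A ⊆ U ∪ EE ∪ A' := by
    intro x hx
    by_cases h1 : ∃ j, x ∈ C j
    · obtain ⟨j, hj⟩ := h1
      by_cases h2 : x ∈ E j
      · exact Finset.mem_union_left _ (Finset.mem_union_right _
          (Finset.mem_biUnion.2 ⟨j, Finset.mem_univ _, h2⟩))
      · exact Finset.mem_union_right _ (Finset.mem_filter.2 ⟨hx, j, hj, h2⟩)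
    · refine Finset.mem_union_left _ (Finset.mem_union_left _ ?_)
      simp only [hU, Finset.mem_sdiff, Finset.mem_univ, Finset.mem_biUnion, true_and]
      exact h1
  have hA'B : A'.card ≤ B.card := by
    have hex : ∀ x : A', ∃ j, (x : Fin n) ∈ C j ∧ (x : Fin n) ∉ E j :=
      fun x => (Finset.mem_filter.1 x.2).2
    choose J hJ using hex
    let τ : A' → B := fun x => ⟨σ (J x) x, by
      have hx : part x ∈ I := (Finset.mem_filter.1 (Finset.mem_filter.1 x.2).1).2
      refine Finset.mem_filter.2 ⟨Finset.mem_univ _, ?_⟩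
      exact hnb _ hx (col (J x), a (J x)) (Finset.mem_image.2 ⟨J x, Finset.mem_univ _, rfl⟩)
        (hline _ _ (hJ x).1) _ (hpart _) (hσ _ _ (hJ x).1 (hJ x).2).2⟩
    have hτ : Function.Injective τ := by
      intro x y hxy
      have h1 : σ (J x) x = σ (J y) y := congrArg Subtype.val hxy
      have h2 : J x = J y := by
        by_contra hne
        have hx := (hσ _ _ (hJ x).1 (hJ x).2).1
        have hy := (hσ _ _ (hJ y).1 (hJ y).2).1
        rw [← h1] at hy
        exact Finset.disjoint_left.1 (hdisj _ _ hne) hx hy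
      have hy := hJ y
      rw [← h2] at hy h1
      exact Subtype.ext (hinj (J x) (hJ x) hy h1)
    simpa using Fintype.card_le_of_injective τ hτ
  have h1 : A.card ≤ U.card + EE.card + A'.card :=
    le_trans (Finset.card_le_card hsub)
      (le_trans (Finset.card_union_le _ _) (Nat.add_le_add_right (Finset.card_union_le _ _) _))
  have h2 : (c + 7) * (∑ p ∈ N, u p + 1) ≤ (c + 7) * ∑ p ∈ I, u p :=
    Nat.mul_le_mul_left _ hlt
  rw [Nat.mul_add] at h2
  omega

open Classical in
/-- the colouring of two-element sets -/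
noncomputable def chi {n : ℕ} (part : Fin n → ℕ) (e : Finset (Fin n)) : ℕ :=
  if h : ∃ xy : Fin n × Fin n, xy.1 ≠ xy.2 ∧ e = {xy.1, xy.2} then
    dir (part h.choose.1) (part h.choose.2) else 0

theorem chi_lt {n : ℕ} (part : Fin n → ℕ) (e : Finset (Fin n)) : chi part e < 6 := by
  unfold chi
  split_ifs
  · exact dir_lt _ _
  · norm_num

theorem chi_eq {n : ℕ} (part : Fin n → ℕ) (hpart : ∀ x, part x < 25) (e : Finset (Fin n))
    (he : e.card = 2) {x y : Fin n} (hxy : x ≠ y) (hx : x ∈ e) (hy : y ∈ e) :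
    chi part e = dir (part x) (part y) := by
  classical
  have hexy : e = {x, y} := by
    symm
    apply Finset.eq_of_subset_of_card_le
    · intro z hz
      rcases Finset.mem_insert.1 hz with rfl | hz
      · exact hx
      · rw [Finset.mem_singleton.1 hz]; exact hy
    · rw [he, Finset.card_pair hxy]
  have hex : ∃ xy : Fin n × Fin n, xy.1 ≠ xy.2 ∧ e = {xy.1, xy.2} := ⟨(x, y), hxy, hexy⟩
  unfold chi
  rw [dif_pos hex]
  obtain ⟨h1, h2⟩ := hex.choose_spec
  set s := hex.choose.1
  set t := hex.choose.2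
  have hx' : x = s ∨ x = t := by
    have := hx; rw [h2] at this; simpa using this
  have hy' : y = s ∨ y = t := by
    have := hy; rw [h2] at this; simpa using this
  rcases hx' with hx' | hx' <;> rcases hy' with hy' | hy'
  · exact absurd (hx'.trans hy'.symm) hxy
  · rw [hx', hy']
  · rw [hx', hy']; exact dir_comm _ (hpart _) _ (hpart _)
  · exact absurd (hx'.trans hy'.symm) hxy

/-- A monochromatic path `v 0, …, v (ℓ - 1)` gives the data needed in `bound`. -/
theorem path_data {n : ℕ} (part : Fin n → ℕ) (hpart : ∀ x, part x < 25) (ℓ : ℕ) (v : ℕ → Fin n)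
    (col : ℕ) (hcol : col < 6) (hv : Set.InjOn v (Set.Iio ℓ))
    (hd : ∀ i, i + 1 < ℓ → dir (part (v i)) (part (v (i + 1))) = col) :
    ∃ (col a : ℕ) (σ : Fin n → Fin n) (E : Finset (Fin n)), col < 6 ∧ a < 5 ∧
      E.card ≤ 1 ∧ (∀ x ∈ (Finset.range ℓ).image v, lid col (part x) = a) ∧
      (∀ x ∈ (Finset.range ℓ).image v, x ∉ E →
        σ x ∈ (Finset.range ℓ).image v ∧ dir (part x) (part (σ x)) = col) ∧
      Set.InjOn σ {x | x ∈ (Finset.range ℓ).image v ∧ x ∉ E} := by
  classical
  let σ : Fin n → Fin n := fun x => if h : ∃ i, i < ℓ ∧ v i = x then v (h.choose + 1) else x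
  have hσ : ∀ i, i < ℓ → σ (v i) = v (i + 1) := by
    intro i hi
    have hex : ∃ j, j < ℓ ∧ v j = v i := ⟨i, hi, rfl⟩
    simp only [σ, dif_pos hex]
    rw [hv hex.choose_spec.1 hi hex.choose_spec.2]
  have hidx : ∀ x ∈ (Finset.range ℓ).image v, x ∉ ({v (ℓ - 1)} : Finset (Fin n)) →
      ∃ i, i + 1 < ℓ ∧ v i = x := by
    intro x hx hE
    obtain ⟨i, hi, rfl⟩ := Finset.mem_image.1 hx
    rw [Finset.mem_range] at hi
    refine ⟨i, ?_, rfl⟩
    by_contra hn
    have : i = ℓ - 1 := by omega
    exact hE (by rw [this]; simp)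
  refine ⟨col, lid col (part (v 0)), σ, {v (ℓ - 1)}, hcol, lid_lt _ hcol _ (hpart _), by simp,
    ?_, ?_, ?_⟩
  · intro x hx
    obtain ⟨i, hi, rfl⟩ := Finset.mem_image.1 hx
    rw [Finset.mem_range] at hi
    induction i with
    | zero => rfl
    | succ i ih =>
      have h1 := lid_dir _ (hpart (v i)) _ (hpart (v (i + 1)))
      rw [hd i hi] at h1
      rw [← h1]
      exact ih (by omega) (Finset.mem_image.2 ⟨i, Finset.mem_range.2 (by omega), rfl⟩)
  · intro x hx hE
    obtain ⟨i, hi, rfl⟩ := hidx x hx hE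
    rw [hσ i (by omega)]
    exact ⟨Finset.mem_image.2 ⟨i + 1, Finset.mem_range.2 hi, rfl⟩, hd i hi⟩
  · intro x hx y hy hxy
    obtain ⟨i, hi, rfl⟩ := hidx x hx.1 hx.2
    obtain ⟨j, hj, rfl⟩ := hidx y hy.1 hy.2
    rw [hσ i (by omega), hσ j (by omega)] at hxy
    have := hv (show i + 1 ∈ Set.Iio ℓ from hi) (show j + 1 ∈ Set.Iio ℓ from hj) hxy
    have : i = j := by omega
    rw [this]

end Pool.Agent.H199Z.Plane
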