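import Mathlib

/-! Vojta's inequality on projective space for rational hyperplanes and two places. -/

namespace Pool.Agent.H199Z.Voj

open NumberField Module

variable {k : Type} [Field k] [NumberField k] {n : ℕ}

/-- The value at `x` of the linear form with coefficient vector `a`. -/
def lin {L : Type} [Field L] [Algebra k L] (a : Fin (n + 1) → k) (x : Fin (n + 1) → L) : L :=
  ∑ i, algebraMap k L (a i) * x i

/-- The standard Weil function `log (max |x_i|_w / |a.x|_w)` of the hyperplane `a` at the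
archimedean place `w`. -/
noncomputable def weil {L : Type} [Field L] [Algebra k L] (a : Fin (n + 1) → k)
    (w : InfinitePlace L) (x : Fin (n + 1) → L) : ℝ :=
  Real.log ((⨆ i, w (x i)) / w (lin a x))

/-- The proximity function of the sum of the hyperplanes `l j` for the set of all archimedean
places, normalised relative to `k`. -/
noncomputable def prox {L : Type} [Field L] [NumberField L] [Algebra k L] {q : ℕ}
    (l : Fin q → Fin (n + 1) → k) (x : Fin (n + 1) → L) : ℝ :=
  (∑ w : InfinitePlace L, (w.mult : ℝ) * ∑ j, weil (l j) w x) / (finrank k L : ℝ)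

/-- The logarithmic Weil height on projective space relative to `k`. -/
noncomputable def ht (k : Type) [Field k] {L : Type} [Field L] [NumberField L] [Algebra k L]
    (x : Fin (n + 1) → L) : ℝ :=
  Height.logHeight x / (finrank k L : ℝ)

/-- The logarithmic discriminant `d_k(L)`. -/
noncomputable def dk (k L : Type) [Field k] [NumberField k] [Field L] [NumberField L]
    [Algebra k L] : ℝ :=
  Real.log |(discr L : ℝ)| / (finrank k L : ℝ) - Real.log |(discr k : ℝ)|

section basic
variable {L : Type} [Field L] [Algebra k L]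

omit [NumberField k] in
lemma lin_add (a b : Fin (n + 1) → k) (x : Fin (n + 1) → L) :
    lin (a + b) x = lin a x + lin b x := by
  simp [lin, add_mul, Finset.sum_add_distrib]

omit [NumberField k] in
lemma lin_smul (c : k) (a : Fin (n + 1) → k) (x : Fin (n + 1) → L) :
    lin (c • a) x = algebraMap k L c * lin a x := by
  simp [lin, Finset.mul_sum, mul_assoc]

omit [NumberField k] in
lemma lin_zero (x : Fin (n + 1) → L) : lin (0 : Fin (n + 1) → k) x = 0 := by
  simp [lin]

omit [NumberField k] in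
lemma lin_single (i : Fin (n + 1)) (x : Fin (n + 1) → L) :
    lin (Pi.single i (1 : k) : Fin (n + 1) → k) x = x i := by
  classical
  unfold lin
  rw [Finset.sum_eq_single i]
  · simp
  · intro b _ hb
    simp [Pi.single_eq_of_ne hb]
  · simp

lemma coef_le (c : k) (w : InfinitePlace L) :
    w (algebraMap k L c) ≤ ∑ v : InfinitePlace k, v c := by
  have : w (algebraMap k L c) = (w.comap (algebraMap k L)) c := by
    rw [InfinitePlace.comap_apply]
  rw [this]
  exact Finset.single_le_sum (f := fun v : InfinitePlace k => v c)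
    (fun v _ => apply_nonneg v c) (Finset.mem_univ _)

end basic

lemma span_bound {q : ℕ} (l : Fin q → Fin (n + 1) → k) (A : Finset (Fin q))
    (e : Fin (n + 1) → k) (he : e ∈ Submodule.span k (l '' (A : Set (Fin q)))) :
    ∃ B : ℝ, 0 ≤ B ∧ ∀ (L : Type) [Field L] [Algebra k L] (w : InfinitePlace L)
      (x : Fin (n + 1) → L) (t : ℝ), 0 ≤ t → (∀ j ∈ A, w (lin (l j) x) ≤ t) →
      w (lin e x) ≤ B * t := by
  induction he using Submodule.span_induction with
  | mem y hy =>
    obtain ⟨j, hj, rfl⟩ := hy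
    exact ⟨1, zero_le_one, fun L _ _ w x t _ h => by simpa using h j hj⟩
  | zero =>
    exact ⟨0, le_rfl, fun L _ _ w x t _ h => by simp [lin_zero]⟩
  | add a b _ _ ha hb =>
    obtain ⟨B1, h1, ha⟩ := ha
    obtain ⟨B2, h2, hb⟩ := hb
    refine ⟨B1 + B2, by positivity, fun L _ _ w x t ht h => ?_⟩
    rw [lin_add]
    have := w.1.add_le (lin a x) (lin b x)
    have h3 := ha L w x t ht h
    have h4 := hb L w x t ht h
    simp only [InfinitePlace.coe_apply] at *
    linarith
  | smul c a _ ha =>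
    obtain ⟨B1, h1, ha⟩ := ha
    have h0 : 0 ≤ ∑ v : InfinitePlace k, v c := Finset.sum_nonneg fun v _ => apply_nonneg v c
    refine ⟨(∑ v : InfinitePlace k, v c) * B1, by positivity, fun L _ _ w x t ht h => ?_⟩
    rw [lin_smul, map_mul, mul_assoc]
    exact mul_le_mul (coef_le c w) (ha L w x t ht h) (apply_nonneg _ _) h0

lemma nrm_pos {L : Type} [Field L] (w : InfinitePlace L) {x : Fin (n + 1) → L} (hx : x ≠ 0) :
    0 < ⨆ i, w (x i) := by
  obtain ⟨i, hi⟩ := Function.ne_iff.mp hx
  exact lt_of_lt_of_le (InfinitePlace.pos_iff.mpr hi)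
    (le_ciSup (f := fun i => w (x i)) (Set.finite_range _).bddAbove i)

/-- First main theorem for one hyperplane. -/
lemma one_plane (a : Fin (n + 1) → k) :
    ∃ C : ℝ, 0 ≤ C ∧ ∀ (L : Type) [Field L] [NumberField L] [Algebra k L]
      (x : Fin (n + 1) → L), x ≠ 0 → lin a x ≠ 0 →
      ∑ w : InfinitePlace L, (w.mult : ℝ) * weil a w x
        ≤ Height.logHeight x + (finrank ℚ L : ℝ) * C := by
  classical
  obtain ⟨N, hN0, hN⟩ := exists_integral_multiples ℤ ℚ (Finset.univ.image a)
  have hN1 : (1 : ℝ) ≤ |(N : ℝ)| := by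
    have : (1 : ℤ) ≤ |N| := Int.one_le_abs hN0
    exact_mod_cast this
  refine ⟨Real.log |(N : ℝ)|, Real.log_nonneg hN1, fun L _ _ _ x hx hax => ?_⟩
  set y : L := (N : L) * lin a x with hy
  have hNL : (N : L) ≠ 0 := by exact_mod_cast hN0
  have hy0 : y ≠ 0 := mul_ne_zero hNL hax
  have hpf := prod_abs_eq_one hy0
  have hH := NumberField.mulHeight_eq hx
  have hsupp : (fun v : FinitePlace L => ⨆ i, v (x i)).HasFiniteMulSupport := by
    have hx' := hx
    obtain ⟨i0, hi0⟩ := Function.ne_iff.mp hx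
    have : Nonempty {j // x j ≠ 0} := ⟨⟨i0, hi0⟩⟩
    simp_rw [Finite.iSup_eq_iSup_subtype hx']
    exact .iSup fun j : {j // x j ≠ 0} => FinitePlace.hasFiniteMulSupport j.prop
  have hfin : ∏ᶠ v : FinitePlace L, v y ≤ ∏ᶠ v : FinitePlace L, ⨆ i, v (x i) := by
    refine finprod_le_finprod (FinitePlace.hasFiniteMulSupport hy0)
      (fun v => apply_nonneg _ _) hsupp fun v => ?_
    have hy2 : y = ∑ i, algebraMap k L (N • a i) * x i := by
      simp [hy, lin, Finset.mul_sum, mul_assoc]
    have hb : ∀ i, v (algebraMap k L (N • a i) * x i) ≤ ⨆ i, v (x i) := by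
      intro i
      have hint : IsIntegral ℤ (algebraMap k L (N • a i)) :=
        (hN (a i) (by simp)).map (algebraMap k L).toIntAlgHom
      have h1 : v (algebraMap k L (N • a i)) ≤ 1 := by
        have := FinitePlace.norm_le_one L v.maximalIdeal (⟨_, hint⟩ : 𝓞 L)
        rw [FinitePlace.norm_embedding_eq] at this
        exact this
      rw [map_mul]
      calc v (algebraMap k L (N • a i)) * v (x i) ≤ 1 * v (x i) :=
            mul_le_mul_of_nonneg_right h1 (apply_nonneg _ _)
        _ = v (x i) := one_mul _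
        _ ≤ _ := le_ciSup (f := fun i => v (x i)) (Set.finite_range _).bddAbove i
    show v y ≤ ⨆ i, v (x i)
    rw [hy2]
    have hna : IsNonarchimedean (v : L → ℝ) := fun a b => FinitePlace.add_le v a b
    obtain ⟨b, -, hb2⟩ := hna.finset_image_add (map_zero _) (fun a => apply_nonneg _ a)
      (fun i => algebraMap k L (N • a i) * x i) Finset.univ
    exact hb2.trans (hb b)
  have hP1 : 0 < ∏ w : InfinitePlace L, w y ^ w.mult :=
    Finset.prod_pos fun w _ => pow_pos (InfinitePlace.pos_iff.mpr hy0) _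
  have hP2 : 0 < ∏ w : InfinitePlace L, (⨆ i, w (x i)) ^ w.mult :=
    Finset.prod_pos fun w _ => pow_pos (nrm_pos w hx) _
  have key : (∏ w : InfinitePlace L, (⨆ i, w (x i)) ^ w.mult) /
      (∏ w : InfinitePlace L, w y ^ w.mult) ≤ Height.mulHeight x := by
    rw [hH, div_le_iff₀ hP1, mul_assoc]
    refine le_mul_of_one_le_right hP2.le ?_
    rw [← hpf, mul_comm]
    exact mul_le_mul_of_nonneg_right hfin hP1.le
  have key2 := Real.log_le_log (div_pos hP2 hP1) key
  rw [Real.log_div hP2.ne' hP1.ne', Real.log_prod, Real.log_prod] at key2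
  · have hsum : (finrank ℚ L : ℝ) = ∑ w : InfinitePlace L, (w.mult : ℝ) := by
      rw [← InfinitePlace.sum_mult_eq]; push_cast; rfl
    rw [hsum, Finset.sum_mul, Height.logHeight]
    have : ∑ w : InfinitePlace L, (w.mult : ℝ) * weil a w x =
        (∑ w : InfinitePlace L, Real.log ((⨆ i, w (x i)) ^ w.mult)) -
        (∑ w : InfinitePlace L, Real.log (w y ^ w.mult)) +
        ∑ w : InfinitePlace L, (w.mult : ℝ) * Real.log |(N : ℝ)| := by
      rw [← Finset.sum_sub_distrib, ← Finset.sum_add_distrib]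
      refine Finset.sum_congr rfl fun w _ => ?_
      have h1 : 0 < w (lin a x) := InfinitePlace.pos_iff.mpr hax
      have h2 : w y = |(N : ℝ)| * w (lin a x) := by
        rw [hy, map_mul]
        congr 1
        rw [← InfinitePlace.norm_embedding_eq]
        simp
      rw [Real.log_pow, Real.log_pow, h2, Real.log_mul (by linarith) h1.ne', weil,
        Real.log_div (nrm_pos w hx).ne' h1.ne']
      ring
    rw [this]
    linarith
  · exact fun w _ => (pow_pos (InfinitePlace.pos_iff.mpr hy0) _).ne'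
  · exact fun w _ => (pow_pos (nrm_pos w hx) _).ne'

lemma uniform_bound {q : ℕ} (l : Fin q → Fin (n + 1) → k) (E : Finset (Fin (n + 1) → k)) :
    ∃ B : ℝ, 1 ≤ B ∧ ∀ (A : Finset (Fin q)), ∀ e ∈ E,
      e ∈ Submodule.span k (l '' (A : Set (Fin q))) →
      ∀ (L : Type) [Field L] [Algebra k L] (w : InfinitePlace L)
      (x : Fin (n + 1) → L) (t : ℝ), 0 ≤ t → (∀ j ∈ A, w (lin (l j) x) ≤ t) →
      w (lin e x) ≤ B * t := by
  classical
  have h : ∀ (A : Finset (Fin q)) (e : Fin (n + 1) → k), ∃ B : ℝ, 0 ≤ B ∧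
      (e ∈ Submodule.span k (l '' (A : Set (Fin q))) →
      ∀ (L : Type) [Field L] [Algebra k L] (w : InfinitePlace L)
      (x : Fin (n + 1) → L) (t : ℝ), 0 ≤ t → (∀ j ∈ A, w (lin (l j) x) ≤ t) →
      w (lin e x) ≤ B * t) := by
    intro A e
    by_cases he : e ∈ Submodule.span k (l '' (A : Set (Fin q)))
    · obtain ⟨B, h0, hB⟩ := span_bound l A e he
      exact ⟨B, h0, fun _ => hB⟩
    · exact ⟨0, le_rfl, fun h => absurd h he⟩
  choose B hB0 hB using h
  have hs : ∀ A, 0 ≤ ∑ e ∈ E, B A e := fun A => Finset.sum_nonneg fun e _ => hB0 A e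
  refine ⟨1 + ∑ A : Finset (Fin q), ∑ e ∈ E, B A e, ?_, ?_⟩
  · have := Finset.sum_nonneg (s := Finset.univ) fun A _ => hs A
    linarith
  · intro A e he hsp L _ _ w x t ht hA
    refine (hB A e hsp L w x t ht hA).trans (mul_le_mul_of_nonneg_right ?_ ht)
    have h1 : B A e ≤ ∑ e ∈ E, B A e :=
      Finset.single_le_sum (f := fun e => B A e) (fun e _ => hB0 A e) he
    have h2 : ∑ e ∈ E, B A e ≤ ∑ A : Finset (Fin q), ∑ e ∈ E, B A e :=
      Finset.single_le_sum (f := fun A => ∑ e ∈ E, B A e) (fun A _ => hs A) (Finset.mem_univ _)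
    linarith

omit [NumberField k] in
lemma finrank_span_eq {q : ℕ} (l : Fin q → Fin (n + 1) → k)
    (hgen : ∀ s : Finset (Fin q), s.card ≤ n + 1 → LinearIndependent k (fun j : s => l j))
    (A : Finset (Fin q)) (hA : A.card ≤ n + 1) :
    finrank k (Submodule.span k (l '' (A : Set (Fin q)))) = A.card := by
  have h := finrank_span_eq_card (hgen A hA)
  have h2 : Set.range (fun j : A => l j) = l '' (A : Set (Fin q)) := by
    ext y; simp
  rw [h2] at h
  simpa using h

omit [NumberField k] in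
lemma exists_common {q : ℕ} (l : Fin q → Fin (n + 1) → k)
    (hgen : ∀ s : Finset (Fin q), s.card ≤ n + 1 → LinearIndependent k (fun j : s => l j))
    (A B : Finset (Fin q)) (hA : A.card ≤ n + 1) (hB : B.card ≤ n + 1)
    (hAB : n + 2 ≤ A.card + B.card) :
    ∃ e : Fin (n + 1) → k, e ≠ 0 ∧ e ∈ Submodule.span k (l '' (A : Set (Fin q))) ∧
      e ∈ Submodule.span k (l '' (B : Set (Fin q))) := by
  have h := Submodule.finrank_sup_add_finrank_inf_eq (Submodule.span k (l '' (A : Set (Fin q))))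
    (Submodule.span k (l '' (B : Set (Fin q))))
  rw [finrank_span_eq l hgen A hA, finrank_span_eq l hgen B hB] at h
  have h2 := Submodule.finrank_le (Submodule.span k (l '' (A : Set (Fin q))) ⊔
    Submodule.span k (l '' (B : Set (Fin q))))
  simp only [finrank_fintype_fun_eq_card, Fintype.card_fin] at h2
  have h3 : Submodule.span k (l '' (A : Set (Fin q))) ⊓
      Submodule.span k (l '' (B : Set (Fin q))) ≠ ⊥ := by
    intro h0
    rw [h0, finrank_bot] at h
    omega
  obtain ⟨e, he, he0⟩ := Submodule.exists_mem_ne_zero_of_ne_bot h3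
  exact ⟨e, he0, he.1, he.2⟩

omit [NumberField k] in
lemma per_place {q : ℕ} (hq : n + 1 ≤ q) (l : Fin q → Fin (n + 1) → k)
    (hgen : ∀ s : Finset (Fin q), s.card ≤ n + 1 → LinearIndependent k (fun j : s => l j))
    (E : Finset (Fin (n + 1) → k)) (hE : ∀ i, (Pi.single i (1 : k) : Fin (n + 1) → k) ∈ E)
    (B : ℝ) (hB1 : 1 ≤ B) {L : Type} [Field L] [Algebra k L] (w : InfinitePlace L)
    (x : Fin (n + 1) → L) (hx : x ≠ 0) (hl : ∀ j, lin (l j) x ≠ 0)
    (hB : ∀ (A : Finset (Fin q)), ∀ e ∈ E, e ∈ Submodule.span k (l '' (A : Set (Fin q))) →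
      ∀ t : ℝ, 0 ≤ t → (∀ j ∈ A, w (lin (l j) x) ≤ t) → w (lin e x) ≤ B * t) :
    ∃ A : Fin (n + 1) → Finset (Fin q), (∀ j, (A j).card = j + 1) ∧
      ∀ e : Fin (n + 1) → Fin (n + 1) → k, (∀ j, e j ∈ E) →
        (∀ j, e j ∈ Submodule.span k (l '' (A j : Set (Fin q)))) → (∀ j, lin (e j) x ≠ 0) →
        ∑ i, weil (l i) w x ≤ ∑ j, weil (e j) w x + q * Real.log B := by
  classical
  set f : Fin q → ℝ := fun i => w (lin (l i) x) with hf
  set σ := Tuple.sort f with hσ
  have hmono : Monotone (f ∘ σ) := Tuple.monotone_sort f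
  have hfpos : ∀ i, 0 < f i := fun i => InfinitePlace.pos_iff.mpr (hl i)
  let A : Fin (n + 1) → Finset (Fin q) := fun j =>
    (Finset.Iic (Fin.castLE hq j)).map σ.toEmbedding
  have hcard : ∀ j, (A j).card = j + 1 := by
    intro j; simp [A]
  have hA : ∀ j, ∀ i ∈ A j, w (lin (l i) x) ≤ f (σ (Fin.castLE hq j)) := by
    intro j i hi
    simp only [A, Finset.mem_map, Finset.mem_Iic, Equiv.coe_toEmbedding] at hi
    obtain ⟨i', hi', rfl⟩ := hi
    exact hmono hi'
  have hN := nrm_pos w hx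
  have hB0 : 0 < B := by linarith
  refine ⟨A, hcard, fun e heE hesp he0 => ?_⟩
  have htop : Submodule.span k (l '' (A (Fin.last n) : Set (Fin q))) = ⊤ := by
    apply Submodule.eq_top_of_finrank_eq
    rw [finrank_span_eq l hgen _ (by rw [hcard]; simp), hcard]
    simp
  have hlast : (⨆ i, w (x i)) ≤ B * f (σ (Fin.castLE hq (Fin.last n))) := by
    refine ciSup_le fun i => ?_
    have := hB (A (Fin.last n)) _ (hE i) (by rw [htop]; trivial) _ (hfpos _).le (hA _)
    rwa [lin_single] at this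
  have h1 : ∀ j : Fin (n + 1), weil (l (σ (Fin.castLE hq j))) w x ≤
      weil (e j) w x + Real.log B := by
    intro j
    have h2 := hB (A j) _ (heE j) (hesp j) _ (hfpos _).le (hA j)
    have h3 : 0 < w (lin (e j) x) := InfinitePlace.pos_iff.mpr (he0 j)
    have h4 := Real.log_le_log h3 h2
    rw [Real.log_mul hB0.ne' (hfpos _).ne'] at h4
    unfold weil
    rw [Real.log_div hN.ne' (hfpos _).ne', Real.log_div hN.ne' h3.ne']
    linarith
  have h2 : ∀ i : Fin q, n + 1 ≤ (i : ℕ) → weil (l (σ i)) w x ≤ Real.log B := by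
    intro i hi
    have h3 : f (σ (Fin.castLE hq (Fin.last n))) ≤ f (σ i) :=
      hmono (by rw [Fin.le_def]; simp; omega)
    unfold weil
    refine Real.log_le_log (div_pos hN (hfpos _)) ?_
    rw [div_le_iff₀ (hfpos _)]
    exact hlast.trans (mul_le_mul_of_nonneg_left h3 hB0.le)
  obtain ⟨m, rfl⟩ := Nat.exists_eq_add_of_le hq
  rw [← Equiv.sum_comp σ, Fin.sum_univ_add]
  have h5 : ∑ j : Fin (n + 1), weil (l (σ (Fin.castAdd m j))) w x ≤
      ∑ j : Fin (n + 1), (weil (e j) w x + Real.log B) :=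
    Finset.sum_le_sum fun j _ => h1 j
  have h6 : ∑ j : Fin m, weil (l (σ (Fin.natAdd (n + 1) j))) w x ≤
      ∑ j : Fin m, Real.log B :=
    Finset.sum_le_sum fun j _ => h2 _ (by simp)
  rw [Finset.sum_add_distrib] at h5
  simp only [Finset.sum_const, Finset.card_univ, Fintype.card_fin, nsmul_eq_mul] at h5 h6
  push_cast at *
  linarith

lemma two_of_card {α : Type} [Fintype α] [Nonempty α] (h : Fintype.card α ≤ 2) :
    ∃ a b : α, ∀ c, c = a ∨ c = b := by
  classical
  by_contra hc
  push Not at hc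
  obtain ⟨a⟩ := ‹Nonempty α›
  obtain ⟨b, hb, -⟩ := hc a a
  obtain ⟨c, hc1, hc2⟩ := hc a b
  have : ({a, b, c} : Finset α).card = 3 := by
    rw [Finset.card_eq_three]
    exact ⟨a, b, c, hb.symm, hc1.symm, hc2.symm, rfl⟩
  have h2 := Finset.card_le_univ ({a, b, c} : Finset α)
  omega

/-- Unnormalised main inequality. -/
lemma main_raw {q : ℕ} (l : Fin q → Fin (n + 1) → k)
    (hgen : ∀ s : Finset (Fin q), s.card ≤ n + 1 → LinearIndependent k (fun j : s => l j)) :
    ∃ Z : Finset (Fin (n + 1) → k), (∀ a ∈ Z, a ≠ 0) ∧ ∃ C : ℝ,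
      ∀ (L : Type) [Field L] [NumberField L] [Algebra k L],
        Fintype.card (InfinitePlace L) ≤ 2 →
        ∀ x : Fin (n + 1) → L, x ≠ 0 → (∀ a ∈ Z, lin a x ≠ 0) →
          ∑ w : InfinitePlace L, (w.mult : ℝ) * ∑ j, weil (l j) w x ≤
            (n + 1) * Height.logHeight x + (finrank ℚ L : ℝ) * C := by
  classical
  have hl0 : ∀ j, l j ≠ 0 := by
    intro j
    have := (hgen {j} (by simp)).ne_zero ⟨j, by simp⟩
    simpa using this
  choose C1 hC10 hC1 using fun a : Fin (n + 1) → k => one_plane a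
  rcases lt_or_ge q (n + 1) with hq | hq
  · refine ⟨Finset.univ.image l, by simpa using hl0, ∑ j, C1 (l j), fun L _ _ _ _ x hx hZ => ?_⟩
    have h1 : ∀ j, lin (l j) x ≠ 0 := fun j => hZ _ (by simp)
    simp_rw [Finset.mul_sum]
    rw [Finset.sum_comm]
    refine (Finset.sum_le_sum fun j _ => hC1 (l j) L x hx (h1 j)).trans ?_
    rw [Finset.sum_add_distrib]
    simp only [Finset.sum_const, Finset.card_univ, Fintype.card_fin, nsmul_eq_mul]
    have h2 : (q : ℝ) ≤ n + 1 := by exact_mod_cast hq.le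
    have h3 := Height.logHeight_nonneg x
    nlinarith
  have hsing : ∀ i : Fin (n + 1), (Pi.single i (1 : k) : Fin (n + 1) → k) ≠ 0 := by
    intro i h
    have := congrFun h i
    simp at this
  have hch : ∀ A B : Finset (Fin q), ∃ e : Fin (n + 1) → k, e ≠ 0 ∧
      (A.card ≤ n + 1 → B.card ≤ n + 1 → n + 2 ≤ A.card + B.card →
        e ∈ Submodule.span k (l '' (A : Set (Fin q))) ∧
        e ∈ Submodule.span k (l '' (B : Set (Fin q)))) := by
    intro A B
    by_cases h : A.card ≤ n + 1 ∧ B.card ≤ n + 1 ∧ n + 2 ≤ A.card + B.card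
    · obtain ⟨e, h0, h1⟩ := exists_common l hgen A B h.1 h.2.1 h.2.2
      exact ⟨e, h0, fun _ _ _ => h1⟩
    · exact ⟨_, hsing 0, fun h1 h2 h3 => absurd ⟨h1, h2, h3⟩ h⟩
  choose e he0 he using hch
  set E0 : Finset (Fin (n + 1) → k) :=
    Finset.univ.image fun p : Finset (Fin q) × Finset (Fin q) => e p.1 p.2 with hE0
  have heE0 : ∀ A B, e A B ∈ E0 := fun A B =>
    Finset.mem_image.mpr ⟨(A, B), Finset.mem_univ _, rfl⟩
  set E : Finset (Fin (n + 1) → k) :=
    E0 ∪ Finset.univ.image fun i => (Pi.single i (1 : k) : Fin (n + 1) → k) with hE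
  obtain ⟨B, hB1, hB⟩ := uniform_bound l E
  refine ⟨E0 ∪ Finset.univ.image l, ?_, (n + 1) * ∑ a ∈ E0, C1 a + q * Real.log B,
    fun L _ _ _ hcard x hx hZ => ?_⟩
  · intro a ha
    rcases Finset.mem_union.mp ha with h | h
    · obtain ⟨p, -, rfl⟩ := Finset.mem_image.mp h
      exact he0 _ _
    · obtain ⟨p, -, rfl⟩ := Finset.mem_image.mp h
      exact hl0 _
  have h1 : ∀ j, lin (l j) x ≠ 0 := fun j => hZ _ (by simp)
  have h2 : ∀ A B, lin (e A B) x ≠ 0 := fun A B => hZ _ (Finset.mem_union_left _ (heE0 A B))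
  have hEs : ∀ i, (Pi.single i (1 : k) : Fin (n + 1) → k) ∈ E := fun i =>
    Finset.mem_union_right _ (Finset.mem_image.mpr ⟨i, Finset.mem_univ _, rfl⟩)
  have heE : ∀ A B, e A B ∈ E := fun A B => Finset.mem_union_left _ (heE0 A B)
  obtain ⟨w1, w2, hw⟩ := two_of_card hcard
  obtain ⟨A1, hA1, hP1⟩ := per_place hq l hgen E hEs B hB1 w1 x hx h1
    (fun A e he hsp t ht h => hB A e he hsp L w1 x t ht h)
  obtain ⟨A2, hA2, hP2⟩ := per_place hq l hgen E hEs B hB1 w2 x hx h1
    (fun A e he hsp t ht h => hB A e he hsp L w2 x t ht h)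
  set g : Fin (n + 1) → Fin (n + 1) → k := fun j => e (A1 j) (A2 j.rev) with hg
  have hgs : ∀ j, g j ∈ Submodule.span k (l '' (A1 j : Set (Fin q))) ∧
      g j ∈ Submodule.span k (l '' (A2 j.rev : Set (Fin q))) := by
    intro j
    refine he _ _ ?_ ?_ ?_
    · rw [hA1]; omega
    · rw [hA2]; have := j.rev.isLt; omega
    · rw [hA1, hA2, Fin.val_rev]; omega
  have hall : ∀ w : InfinitePlace L,
      ∑ i, weil (l i) w x ≤ ∑ j, weil (g j) w x + q * Real.log B := by
    intro w
    rcases hw w with rfl | rfl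
    · exact hP1 g (fun j => heE _ _) (fun j => (hgs j).1) (fun j => h2 _ _)
    · have := hP2 (fun j => g j.rev) (fun j => heE _ _)
        (fun j => by simpa using (hgs j.rev).2) (fun j => h2 _ _)
      have h7 := Equiv.sum_comp Fin.revPerm (fun j => weil (g j) w x)
      simp only [Fin.revPerm_apply] at h7
      rwa [h7] at this
  have hsum : (finrank ℚ L : ℝ) = ∑ w : InfinitePlace L, (w.mult : ℝ) := by
    rw [← InfinitePlace.sum_mult_eq]; push_cast; rfl
  have h3 : ∑ w : InfinitePlace L, (w.mult : ℝ) * ∑ j, weil (l j) w x ≤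
      ∑ w : InfinitePlace L, (w.mult : ℝ) * (∑ j, weil (g j) w x + q * Real.log B) :=
    Finset.sum_le_sum fun w _ => mul_le_mul_of_nonneg_left (hall w) (Nat.cast_nonneg _)
  have h4 : ∑ w : InfinitePlace L, (w.mult : ℝ) * (∑ j, weil (g j) w x + q * Real.log B) =
      ∑ j, ∑ w : InfinitePlace L, (w.mult : ℝ) * weil (g j) w x +
        (finrank ℚ L : ℝ) * (q * Real.log B) := by
    rw [Finset.sum_comm, hsum, Finset.sum_mul, ← Finset.sum_add_distrib]
    refine Finset.sum_congr rfl fun w _ => ?_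
    rw [mul_add, Finset.mul_sum]
  have h5 : ∀ j, ∑ w : InfinitePlace L, (w.mult : ℝ) * weil (g j) w x ≤
      Height.logHeight x + (finrank ℚ L : ℝ) * ∑ a ∈ E0, C1 a := by
    intro j
    refine (hC1 (g j) L x hx (h2 _ _)).trans ?_
    have : C1 (g j) ≤ ∑ a ∈ E0, C1 a :=
      Finset.single_le_sum (f := C1) (fun a _ => hC10 a) (heE0 _ _)
    have h0 : (0 : ℝ) ≤ finrank ℚ L := Nat.cast_nonneg _
    nlinarith
  have h6 := Finset.sum_le_sum (s := Finset.univ) fun j _ => h5 j
  simp only [Finset.sum_const, Finset.card_univ, Fintype.card_fin, nsmul_eq_mul] at h6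
  push_cast at h6
  linarith

lemma card_le_two (L : Type) [Field L] [NumberField L] [Algebra k L]
    (h1 : Fintype.card (InfinitePlace k) = 1) (h2 : finrank k L ≤ 2) :
    Fintype.card (InfinitePlace L) ≤ 2 := by
  obtain ⟨v, hv⟩ := Fintype.card_eq_one_iff.mp h1
  have hk : finrank ℚ k = v.mult := by
    rw [← InfinitePlace.sum_mult_eq, Finset.sum_eq_single v]
    · intro b _ hb; exact absurd (hv b) hb
    · simp
  have hL : ∑ w : InfinitePlace L, v.mult ≤ ∑ w : InfinitePlace L, w.mult :=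
    Finset.sum_le_sum fun w _ => by
      have := InfinitePlace.mult_comap_le (algebraMap k L) w
      rwa [hv (w.comap _)] at this
  rw [InfinitePlace.sum_mult_eq, ← Module.finrank_mul_finrank ℚ k L, hk] at hL
  simp only [Finset.sum_const, Finset.card_univ, smul_eq_mul] at hL
  have hv0 : 0 < v.mult := InfinitePlace.mult_pos
  have : Fintype.card (InfinitePlace L) * v.mult ≤ 2 * v.mult := by nlinarith
  exact Nat.le_of_mul_le_mul_right this hv0

end Pool.Agent.H199Z.Voj
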